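import Pool.Agent.W170.Z3.Stm
import Pool.Agent.H337R2.Crude2

/-!
# Project Z3, part C3: crude p-adic bound of the linear form (all primes)
-/

open Polynomial Pool.Agent.H337R2

namespace Pool.Agent.W392.Z3

open Pool.Agent.W170.Z3

noncomputable section

set_option linter.unusedSectionVars false

section C3aux

variable {p : ℕ} [hp : Fact p.Prime]

lemma C3_fac_pos (N : ℕ) : 0 < padicNorm p ((N.factorial : ℕ) : ℚ) :=
  lt_of_le_of_ne (padicNorm.nonneg _)
    (Ne.symm (padicNorm.nonzero (by exact_mod_cast Nat.factorial_ne_zero _)))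

/-- the factor of the site `m` -/
def C3f (p k m : ℕ) : ℚ := if m = k then 1 else (padicNorm p ((m : ℚ) - k))⁻¹

lemma C3f_nonneg (k m : ℕ) : 0 ≤ C3f p k m := by
  unfold C3f
  split_ifs
  · exact zero_le_one
  · exact inv_nonneg.2 (padicNorm.nonneg _)

lemma C3_brick {n a b k : ℕ} (hb : 1 ≤ b) (hab : a + b = 12 * n) (hk : k ≤ 12 * n) :
    padicNorm p (((b.factorial : ℕ)) : ℚ) * ∏ m ∈ Finset.Icc (a + 1) (12 * n), C3f p k m ≤
      ((14 * n + 1 : ℕ) : ℚ) ^ 2 := by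
  obtain ⟨N, rfl⟩ : ∃ N, b = N + 1 := ⟨b - 1, by omega⟩
  have h1 := brick_bound (p := p) (a + 1) N k ((14 * n + 1 : ℕ) : ℚ)
    (by exact_mod_cast (by omega : 1 ≤ 14 * n + 1)) (by exact_mod_cast (by omega : N + 1 ≤ 14 * n + 1))
    (by exact_mod_cast (by omega : a + 1 + N ≤ 14 * n + 1)) (by exact_mod_cast (by omega : k ≤ 14 * n + 1))
  rw [show a + 1 + N = 12 * n by omega] at h1
  have h2 : padicNorm p (((N + 1).factorial : ℕ) : ℚ) ≤ padicNorm p ((N.factorial : ℕ) : ℚ) := by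
    rw [Nat.factorial_succ, Nat.cast_mul, padicNorm.mul]
    exact mul_le_of_le_one_left (padicNorm.nonneg _) (padicNorm.of_nat _)
  refine le_trans (mul_le_mul_of_nonneg_right h2 (Finset.prod_nonneg fun m _ => C3f_nonneg k m)) h1

lemma C3_prod {n k : ℕ} (hk : k ∈ sF n) :
    ∏ m ∈ (sF n).erase k, (padicNorm p ((m : ℚ) - k))⁻¹ ^ mF m =
      (∏ m ∈ Finset.Icc (5 * n + 1) (12 * n), C3f p k m) *
      (∏ m ∈ Finset.Icc (5 * n + 1) (12 * n), C3f p k m) := by
  have h1 : ∏ m ∈ (sF n).erase k, (padicNorm p ((m : ℚ) - k))⁻¹ ^ mF m =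
      ∏ m ∈ sF n, C3f p k m ^ 2 := by
    rw [← Finset.mul_prod_erase _ _ hk]
    rw [show C3f p k k = 1 by simp [C3f], one_pow, one_mul]
    apply Finset.prod_congr rfl
    intro m hm
    rw [C3f, if_neg (Finset.ne_of_mem_erase hm)]
  rw [h1, Finset.prod_pow, sq]

lemma C3_choose_inv {T k : ℕ} (hk : 1 ≤ k) (hkT : k ≤ T) (M : ℚ) (hT : (T : ℚ) ≤ M) :
    (padicNorm p (Nat.choose T k : ℚ))⁻¹ ≤ M := by
  have hch : Nat.choose T k ≠ 0 := (Nat.choose_pos hkT).ne'
  rw [padicNorm.eq_zpow_of_nonzero (by exact_mod_cast hch), padicValRat.of_nat, ← zpow_neg, neg_neg,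
    zpow_natCast]
  refine le_trans ?_ hT
  have h1 := Nat.factorization_choose_le_log (p := p) (n := T) (k := k)
  rw [Nat.factorization_def _ hp.out] at h1
  have h2 : p ^ padicValNat p (Nat.choose T k) ≤ T :=
    (Nat.pow_le_pow_right hp.out.pos h1).trans (Nat.pow_log_le_self p (by omega))
  exact_mod_cast h2

/-- the factor of the zero `m` -/
def C3g (p k m : ℕ) : ℚ := if m = k then 1 else padicNorm p ((k : ℚ) - m)

lemma C3g_nonneg (k m : ℕ) : 0 ≤ C3g p k m := by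
  unfold C3g
  split_ifs
  · exact zero_le_one
  · exact padicNorm.nonneg _

lemma C3_up (k L : ℕ) : ∏ m ∈ Finset.Icc (k + 1) (k + L), C3g p k m =
    padicNorm p ((L.factorial : ℕ) : ℚ) := by
  induction L with
  | zero => simp
  | succ L ih =>
    rw [← add_assoc, Finset.prod_Icc_succ_top (by omega), ih, C3g, if_neg (by omega),
      Nat.factorial_succ, Nat.cast_mul, padicNorm.mul, mul_comm]
    congr 1
    rw [← padicNorm.neg]
    congr 1
    push_cast
    ring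

lemma C3_zeros {T k : ℕ} (hk : 1 ≤ k) (M : ℚ) (hM1 : 1 ≤ M) (hT : (T : ℚ) ≤ M) :
    ∏ m ∈ Finset.Icc 1 T, C3g p k m ≤ padicNorm p ((T.factorial : ℕ) : ℚ) * M ^ 2 := by
  have hM2 : (1 : ℚ) ≤ M ^ 2 := one_le_pow₀ hM1
  have hT0 : 0 ≤ padicNorm p ((T.factorial : ℕ) : ℚ) := padicNorm.nonneg _
  rcases lt_or_ge T k with hkT | hkT
  · have h1 : ∏ m ∈ Finset.Icc 1 T, C3g p k m = ∏ m ∈ Finset.Icc 1 T, padicNorm p ((k : ℚ) - m) := by
      apply Finset.prod_congr rfl
      intro m hm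
      rw [Finset.mem_Icc] at hm
      rw [C3g, if_neg (by omega)]
    rw [h1]
    refine (num_bound (p := p) k T (by omega)).trans ?_
    exact le_mul_of_one_le_right hT0 hM2
  · have e1 : Finset.Icc 1 T = insert k (Finset.Icc 1 (k - 1) ∪ Finset.Icc (k + 1) (k + (T - k))) := by
      ext x; simp only [Finset.mem_Icc, Finset.mem_insert, Finset.mem_union]; omega
    rw [e1, Finset.prod_insert (by simp; omega), Finset.prod_union (by
      rw [Finset.disjoint_left]; intro x; simp only [Finset.mem_Icc]; omega), C3_up]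
    have e2 : C3g p k k = 1 := by simp [C3g]
    have h1 : ∏ m ∈ Finset.Icc 1 (k - 1), C3g p k m =
        ∏ m ∈ Finset.Icc 1 (k - 1), padicNorm p ((k : ℚ) - m) := by
      apply Finset.prod_congr rfl
      intro m hm
      rw [Finset.mem_Icc] at hm
      rw [C3g, if_neg (by omega)]
    have h2 := num_bound (p := p) k (k - 1) (by omega)
    rw [e2, one_mul, h1]
    have h3 : 0 ≤ padicNorm p (((T - k).factorial : ℕ) : ℚ) := padicNorm.nonneg _
    refine (mul_le_mul_of_nonneg_right h2 h3).trans ?_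
    have e3 : ((T.factorial : ℕ) : ℚ) = (Nat.choose T k : ℚ) * (k : ℚ) *
        (((k - 1).factorial : ℕ) : ℚ) * (((T - k).factorial : ℕ) : ℚ) := by
      have h4 := Nat.choose_mul_factorial_mul_factorial hkT
      have h5 : k.factorial = k * (k - 1).factorial := (Nat.mul_factorial_pred (by omega)).symm
      rw [h5] at h4
      rw [← h4]
      push_cast
      ring
    rw [e3, padicNorm.mul, padicNorm.mul, padicNorm.mul]
    have h6 := C3_choose_inv (p := p) hk hkT M hT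
    have h7 : (padicNorm p (k : ℚ))⁻¹ ≤ M := by
      have := norm_inv_le (p := p) (a := (k : ℤ)) (by omega) (M := M) (by
        push_cast
        rw [abs_of_nonneg (by positivity)]
        refine le_trans ?_ hT
        exact_mod_cast hkT)
      simpa using this
    have h8 : 0 < padicNorm p (Nat.choose T k : ℚ) :=
      lt_of_le_of_ne (padicNorm.nonneg _) (Ne.symm (padicNorm.nonzero
        (by exact_mod_cast (Nat.choose_pos hkT).ne')))
    have h9 : 0 < padicNorm p (k : ℚ) :=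
      lt_of_le_of_ne (padicNorm.nonneg _) (Ne.symm (padicNorm.nonzero
        (by exact_mod_cast (by omega : k ≠ 0))))
    rw [inv_le_iff_one_le_mul₀ h8] at h6
    rw [inv_le_iff_one_le_mul₀ h9] at h7
    have h10 : 0 ≤ padicNorm p (((k - 1).factorial : ℕ) : ℚ) := padicNorm.nonneg _
    have h11 : 1 ≤ (M * padicNorm p (Nat.choose T k : ℚ)) * (M * padicNorm p (k : ℚ)) :=
      one_le_mul_of_one_le_of_one_le h6 h7
    calc padicNorm p (((k - 1).factorial : ℕ) : ℚ) * padicNorm p (((T - k).factorial : ℕ) : ℚ)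
        ≤ (padicNorm p (((k - 1).factorial : ℕ) : ℚ) * padicNorm p (((T - k).factorial : ℕ) : ℚ)) *
          ((M * padicNorm p (Nat.choose T k : ℚ)) * (M * padicNorm p (k : ℚ))) :=
          le_mul_of_one_le_right (mul_nonneg h10 h3) h11
      _ = _ := by ring

lemma C3_zero_PB {n k m : ℕ} (hk : k ≤ 12 * n) (hm : m ≤ 12 * n) (M : ℚ) (hM1 : 1 ≤ M)
    (hM : ((12 * n : ℕ) : ℚ) ≤ M) :
    PB p M (C3g p k m) (TS (-(k : ℚ)) (X + C (m : ℚ))) := by
  have hM0 : 0 ≤ M := le_trans (by positivity) hM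
  rw [TS_lin]
  by_cases hmk : m = k
  · rw [C3g, if_pos hmk]
    apply PB.linX hM0 zero_le_one
    · rw [hmk, neg_add_cancel, padicNorm.zero]
      exact zero_le_one
    · rw [one_mul]; exact hM1
  rw [C3g, if_neg hmk]
  apply PB.linX hM0 (padicNorm.nonneg _)
  · apply le_of_eq
    rw [← padicNorm.neg]
    congr 1; ring
  · have h3 := norm_inv_le (p := p) (a := (k : ℤ) - m) (by omega) (M := M) (by
      push_cast
      have h5 : (m : ℚ) ≤ ((12 * n : ℕ) : ℚ) := by exact_mod_cast hm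
      have h6 : (k : ℚ) ≤ ((12 * n : ℕ) : ℚ) := by exact_mod_cast hk
      have h7 : (0 : ℚ) ≤ m := by positivity
      have h8 : (0 : ℚ) ≤ k := by positivity
      rw [abs_le]
      constructor <;> linarith)
    push_cast at h3
    have h4 : 0 < padicNorm p ((k : ℚ) - m) := by
      refine lt_of_le_of_ne (padicNorm.nonneg _) (Ne.symm (padicNorm.nonzero ?_))
      intro h
      apply hmk
      have : (m : ℚ) = k := by linarith
      exact_mod_cast this
    rw [inv_le_iff_one_le_mul₀ h4] at h3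
    linarith

lemma C3_prod_PB {n k T : ℕ} (hk1 : 1 ≤ k) (hk : k ≤ 12 * n) (hT : T ≤ 12 * n) (M : ℚ)
    (hM1 : 1 ≤ M) (hM : ((12 * n : ℕ) : ℚ) ≤ M) :
    PB p M (padicNorm p ((T.factorial : ℕ) : ℚ) * M ^ 2)
      (∏ m ∈ Finset.Icc 1 T, TS (-(k : ℚ)) (X + C (m : ℚ))) := by
  have hM0 : 0 ≤ M := by linarith
  have h3 : PB p M (∏ m ∈ Finset.Icc 1 T, C3g p k m)
      (∏ m ∈ Finset.Icc 1 T, TS (-(k : ℚ)) (X + C (m : ℚ))) := by
    apply PB.prod _ _ _ hM0 (fun m _ => C3g_nonneg k m)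
    intro m hm
    rw [Finset.mem_Icc] at hm
    exact C3_zero_PB (n := n) hk (by omega) M hM1 hM
  refine PB.mono hM0 h3 (C3_zeros hk1 M hM1 ?_)
  refine le_trans ?_ hM
  exact_mod_cast hT

lemma C3_PF_PB {n k : ℕ} (hk : k ∈ sF n) (M : ℚ) (hM1 : 1 ≤ M) (hM : ((12 * n : ℕ) : ℚ) ≤ M) :
    PB p M (padicNorm p (((7 * n).factorial : ℕ) : ℚ) * padicNorm p (((7 * n).factorial : ℕ) : ℚ) *
      M ^ 4) (TS (-(k : ℚ)) (PF n)) := by
  have hM0 : 0 ≤ M := le_trans (by positivity) hM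
  have hk' := hk
  rw [sF, Finset.mem_Icc] at hk'
  unfold PF
  rw [map_mul, map_mul, map_prod, map_prod, TS_C]
  have h1 : PB p M (padicNorm p (cF n)) (PowerSeries.C (cF n)) := PB.C hM0 (padicNorm.nonneg _) le_rfl
  have h3 := C3_prod_PB (p := p) (n := n) (k := k) (T := 4 * n) (by omega) (by omega) (by omega) M hM1 hM
  have h4 := C3_prod_PB (p := p) (n := n) (k := k) (T := 6 * n) (by omega) (by omega) (by omega) M hM1 hM
  have n4 : 0 ≤ padicNorm p (((4 * n).factorial : ℕ) : ℚ) * M ^ 2 :=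
    mul_nonneg (padicNorm.nonneg _) (by positivity)
  have n6 : 0 ≤ padicNorm p (((6 * n).factorial : ℕ) : ℚ) * M ^ 2 :=
    mul_nonneg (padicNorm.nonneg _) (by positivity)
  refine PB.mono hM0 (PB.mul hM0 (padicNorm.nonneg _) (mul_nonneg n4 n6) h1
    (PB.mul hM0 n4 n6 h3 h4)) (le_of_eq ?_)
  rw [cF, padicNorm.div, Nat.cast_pow, Nat.cast_mul, sq, padicNorm.mul, padicNorm.mul]
  have := (C3_fac_pos (p := p) (4 * n)).ne'
  have := (C3_fac_pos (p := p) (6 * n)).ne'
  field_simp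

lemma C3_pa {n : ℕ} (hn : 1 ≤ n) (E : ℚ[X]) (A : ℚ) (hA : 0 ≤ A) {k : ℕ} (hk : k ∈ sF n)
    (hE : PB p ((14 * n + 1 : ℕ) : ℚ) A (TS (-(k : ℚ)) E)) (i : ℕ) :
    padicNorm p (pa (sF n) mF (PF n * E) k i) ≤ ((14 * n + 1 : ℕ) : ℚ) ^ 10 * A := by
  set M : ℚ := ((14 * n + 1 : ℕ) : ℚ) with hM
  have hM1 : 1 ≤ M := by rw [hM]; exact_mod_cast (by omega : 1 ≤ 14 * n + 1)
  have hM0 : (0 : ℚ) ≤ M := by linarith
  have hM12 : ((12 * n : ℕ) : ℚ) ≤ M := by rw [hM]; exact_mod_cast (by omega : 12 * n ≤ 14 * n + 1)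
  have hk' := hk
  rw [sF, Finset.mem_Icc] at hk'
  unfold pa
  split_ifs with hi
  · set F7 := padicNorm p (((7 * n).factorial : ℕ) : ℚ) with hF7
    have h7 : 0 ≤ F7 := padicNorm.nonneg _
    have hB0 : 0 ≤ F7 * F7 * M ^ 4 := mul_nonneg (mul_nonneg h7 h7) (by positivity)
    have hPB : PB p M (F7 * F7 * M ^ 4 * A) (TS (-(k : ℚ)) (PF n * E)) := by
      rw [map_mul]
      exact PB.mul hM0 hB0 hA (C3_PF_PB hk M hM1 hM12) hE
    have h1 := pfc_bound (p := p) (sF n) mF (PF n * E) k M _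
      (fun m => (padicNorm p ((m : ℚ) - k))⁻¹) hM0 (mul_nonneg hB0 hA) hPB
      (by
        intro m hm _
        have hmk := Finset.ne_of_mem_erase hm
        have hm2 := Finset.mem_of_mem_erase hm
        rw [sF, Finset.mem_Icc] at hm2
        refine ⟨le_rfl, ?_⟩
        have h3 := norm_inv_le (p := p) (a := (m : ℤ) - k) (by omega) (M := M) (by
          push_cast
          have h5 : (m : ℚ) ≤ ((12 * n : ℕ) : ℚ) := by exact_mod_cast (by omega : m ≤ 12 * n)
          have h6 : (k : ℚ) ≤ ((12 * n : ℕ) : ℚ) := by exact_mod_cast (by omega : k ≤ 12 * n)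
          have h7 : (0 : ℚ) ≤ m := by positivity
          have h8 : (0 : ℚ) ≤ k := by positivity
          rw [abs_le]
          constructor <;> linarith)
        push_cast at h3
        exact h3)
      (fun m _ => inv_nonneg.2 (padicNorm.nonneg _)) (mF k - i)
    refine h1.trans ?_
    rw [C3_prod hk]
    have b3 := C3_brick (p := p) (n := n) (a := 5 * n) (b := 7 * n) (k := k) (by omega) (by omega) (by omega)
    rw [← hM] at b3
    set G3 := ∏ m ∈ Finset.Icc (5 * n + 1) (12 * n), C3f p k m with hG3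
    have g3 : 0 ≤ G3 := Finset.prod_nonneg fun m _ => C3f_nonneg k m
    have hml : mF k - i ≤ 2 := by
      have : mF k = 2 := rfl
      omega
    have h8 : M ^ (mF k - i) ≤ M ^ 2 := pow_le_pow_right₀ hM1 hml
    calc F7 * F7 * M ^ 4 * A * (G3 * G3) * M ^ (mF k - i)
        = (F7 * G3) * (F7 * G3) * M ^ 4 * A * M ^ (mF k - i) := by ring
      _ ≤ M ^ 2 * M ^ 2 * M ^ 4 * A * M ^ 2 := by
          have q3 : 0 ≤ F7 * G3 := mul_nonneg h7 g3
          gcongr
      _ = M ^ 10 * A := by ring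
  · rw [padicNorm.zero]; positivity

lemma C3_rho {n : ℕ} (hn : 1 ≤ n) (E : ℚ[X]) (A : ℚ) (hA : 0 ≤ A)
    (hE : ∀ k ∈ sF n, PB p ((14 * n + 1 : ℕ) : ℚ) A (TS (-(k : ℚ)) E)) :
    padicNorm p (rho n (PF n * E)) ≤ ((14 * n + 1 : ℕ) : ℚ) ^ 10 * A := by
  unfold rho
  apply padicNorm.sum_le' _ (by positivity)
  intro k hk
  exact C3_pa hn E A hA hk (hE k hk) 2

lemma C3_term (c : ℕ) (x y M A : ℚ) (hM1 : 1 ≤ M) (hA : 0 ≤ A)
    (hx : padicNorm p x ≤ M ^ 10 * A) (hy : padicNorm p y ≤ M ^ 4) :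
    padicNorm p ((c : ℚ) * x * y) ≤ M ^ 40 * A := by
  rw [padicNorm.mul, padicNorm.mul]
  have hM0 : (0 : ℚ) ≤ M := by linarith
  calc padicNorm p (c : ℚ) * padicNorm p x * padicNorm p y
      ≤ 1 * (M ^ 10 * A) * M ^ 4 := by
        have h0 : padicNorm p (c : ℚ) ≤ 1 := padicNorm.of_nat c
        have h1 : 0 ≤ padicNorm p x := padicNorm.nonneg _
        have h2 : 0 ≤ padicNorm p y := padicNorm.nonneg _
        have h3 : 0 ≤ padicNorm p (c : ℚ) := padicNorm.nonneg _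
        gcongr
    _ = M ^ 14 * A := by ring
    _ ≤ M ^ 40 * A := mul_le_mul_of_nonneg_right (pow_le_pow_right₀ hM1 (by norm_num)) hA

lemma C3_scale (x y W : ℚ) (hx : padicNorm p x ≤ 1) (hy : padicNorm p y ≤ W) :
    padicNorm p (x * y) ≤ W := by
  rw [padicNorm.mul]
  exact (mul_le_of_le_one_left (padicNorm.nonneg _) hx).trans hy

end C3aux

theorem C3 : StC3 := by
  intro n p _ hn q x hx E A hA hE
  obtain ⟨hq, z, hz⟩ := hx
  have hpa := fun k hk i => C3_pa (p := p) hn E A hA (k := k) hk (hE k hk) i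
  have hrho := C3_rho (p := p) hn E A hA hE
  have hM1 : 1 ≤ ((14 * n + 1 : ℕ) : ℚ) := by exact_mod_cast (by omega : 1 ≤ 14 * n + 1)
  have hhs : ∀ m : ℕ, m ≤ 14 * n + 1 → (m : ℚ) ≤ ((14 * n + 1 : ℕ) : ℚ) := fun m hm => by
    exact_mod_cast hm
  clear hE
  generalize ((14 * n + 1 : ℕ) : ℚ) = M at *
  have hM0 : (0 : ℚ) ≤ M := by linarith
  have hW : 0 ≤ M ^ 40 * A := mul_nonneg (pow_nonneg hM0 _) hA
  have h20 : M ^ 10 * A ≤ M ^ 40 * A :=
    mul_le_mul_of_nonneg_right (pow_le_pow_right₀ hM1 (by norm_num)) hA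
  have hxi : padicNorm p ((q : ℚ) * x) ≤ 1 := by
    rw [hz]; exact padicNorm.of_int z
  have hhs4 : ∀ i ≤ 4, ∀ k ∈ sF n, padicNorm p (hs i (k - 4 * n - 1)) ≤ M ^ 4 := by
    intro i hi k hk
    have hk' := hk
    rw [sF, Finset.mem_Icc] at hk'
    have := hs_norm_crude (p := p) i (k - 4 * n - 1) M (hhs _ (by omega)) hM1
    exact this.trans (pow_le_pow_right₀ hM1 hi)
  have h3b : padicNorm p (h3 n (PF n * E)) ≤ M ^ 40 * A := by
    unfold h3
    apply padicNorm.sum_le' _ hW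
    intro k hk
    refine padicNorm.nonarchimedean.trans (max_le ?_ ?_)
    · exact_mod_cast C3_term (p := p) 2 _ _ M A hM1 hA (hpa k hk 2) (hhs4 3 (by norm_num) k hk)
    · have h1 := C3_term (p := p) 1 _ _ M A hM1 hA (hpa k hk 1) (hhs4 2 (by norm_num) k hk)
      rw [Nat.cast_one, one_mul] at h1
      exact h1
  have e : (q : ℚ) * xf n x (PF n * E) =
      ((2 : ℕ) : ℚ) * (((q : ℚ) * x) * rho n (PF n * E)) - (q : ℚ) * h3 n (PF n * E) := by
    unfold xf
    push_cast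
    ring
  rw [e]
  refine padicNorm.sub.trans (max_le ?_ ?_)
  · exact C3_scale _ _ _ (padicNorm.of_nat 2) (C3_scale _ _ _ hxi (hrho.trans h20))
  · exact C3_scale _ _ _ (padicNorm.of_nat q) h3b

end

end Pool.Agent.W392.Z3
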